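import Pool.Agent.MP_b8a826_gt.Mg.Main

namespace Pool.Agent.Results.MP_b8a826_gt.MazurNontrivial
open Pool.Agent.MP_b8a826_gt Set

/-- The pattern `mazur` is an embedded circle inside the solid torus, unknotted, of winding number
one, and its satellite of some knot is not topologically concordant to that knot. -/
theorem result : (∀ θ, ‖(mazur θ).2‖ < 1) ∧ Function.Injective mazur ∧ Unknotted mazur ∧
    ContinuousMap.Homotopic (ContinuousMap.fst.comp mazur) (ContinuousMap.id Circle) ∧
    ∃ e : C(Circle × ℂ, S3), Topology.IsOpenEmbedding e ∧ Seifert e ∧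
      ¬ Concordant (range (e ∘ mazur)) (range fun θ => e (θ, 0)) :=
  main mazur rfl

end Pool.Agent.Results.MP_b8a826_gt.MazurNontrivial
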